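import Pool.Agent.H724.WE.EqStm

/-! Word equations: inflation gives a new solution (EQ4), and a power (EQ5); project of helper724. -/

set_option autoImplicit false

namespace H914.WE

open H724.WE

variable {A Ω : Type}

lemma infl_add (W : ℕ → A) (u : List A) (K : ℕ) (y : ℕ → ℕ) (p t t' : ℕ) :
    infl W u K y p (t + t') = infl W u K y p t ++ infl W u K y (p + t) t' := by
  unfold infl
  rw [List.range_add, List.flatMap_append, List.flatMap_map]
  congr 2
  funext k
  rw [Nat.add_assoc]

lemma infl_zero (W : ℕ → A) (u : List A) (K : ℕ) (y : ℕ → ℕ) (p : ℕ) :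
    infl W u K y p 0 = [] := rfl

lemma infl_one (W : ℕ → A) (u : List A) (K : ℕ) (y : ℕ → ℕ) (p : ℕ) :
    infl W u K y p 1 = (List.replicate (K * y p) u).flatten ++ [W p] := by
  unfold infl
  simp [List.range_succ]

lemma infl_ne_nil (W : ℕ → A) (u : List A) (K : ℕ) (y : ℕ → ℕ) (p t : ℕ) (ht : t ≠ 0) :
    infl W u K y p t ≠ [] := by
  obtain ⟨s, rfl⟩ := Nat.exists_eq_succ_of_ne_zero ht
  rw [Nat.succ_eq_add_one, infl_add, infl_one]
  simp

lemma subst_append (σ : Ω → List A) (U V : List (A ⊕ Ω)) :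
    subst σ (U ++ V) = subst σ U ++ subst σ V := by
  unfold subst
  rw [List.flatMap_append]

lemma subst_take_succ (σ : Ω → List A) (U : List (A ⊕ Ω)) {j : ℕ} (s : A ⊕ Ω)
    (hj : U[j]? = some s) :
    subst σ (U.take (j + 1)) = subst σ (U.take j) ++ Sum.elim (fun a => [a]) σ s := by
  rw [List.take_add_one, subst_append, hj]
  simp [subst]

lemma st_succ (σ : Ω → List A) (U : List (A ⊕ Ω)) {j : ℕ} (s : A ⊕ Ω) (hj : U[j]? = some s) :
    st σ U (j + 1) = st σ U j + (Sum.elim (fun a => [a]) σ s).length := by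
  unfold st
  rw [subst_take_succ σ U s hj, List.length_append]

lemma st_zero (σ : Ω → List A) (U : List (A ⊕ Ω)) : st σ U 0 = 0 := by
  simp [st, subst]

lemma st_length (σ : Ω → List A) (U : List (A ⊕ Ω)) : st σ U U.length = (subst σ U).length := by
  simp [st]

/-- the letter at the position of a constant -/
lemma wd_const (a0 : A) (σ : Ω → List A) (U : List (A ⊕ Ω)) {j : ℕ} (a : A)
    (hj : U[j]? = some (Sum.inl a)) : wd a0 σ U (st σ U j) = a := by
  have h1 : U = U.take j ++ (Sum.inl a :: U.drop (j + 1)) := by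
    obtain ⟨hlt, hj'⟩ := List.getElem?_eq_some_iff.1 hj
    rw [← hj', ← List.drop_eq_getElem_cons hlt, List.take_append_drop]
  unfold wd
  have h2 : subst σ U = subst σ (U.take j) ++ (a :: subst σ (U.drop (j + 1))) := by
    conv_lhs => rw [h1]
    rw [subst_append]
    congr 1
  rw [h2]
  unfold st
  rw [List.getD_append_right _ _ _ _ le_rfl, Nat.sub_self]
  rfl

lemma subst_infl (σ σ' : Ω → List A) (W : ℕ → A) (u : List A) (K : ℕ) (y : ℕ → ℕ)
    (Z : List (A ⊕ Ω)) (ha : ∀ j a, Z[j]? = some (Sum.inl a) → W (st σ Z j) = a)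
    (hb : ∀ j ≤ Z.length, y (st σ Z j) = 0)
    (hc : ∀ j X, Z[j]? = some (Sum.inr X) → σ' X = infl W u K y (st σ Z j) (σ X).length) :
    ∀ j ≤ Z.length, subst σ' (Z.take j) = infl W u K y 0 (st σ Z j) := by
  intro j
  induction j with
  | zero =>
    intro _
    rw [st_zero]
    simp [subst, infl]
  | succ j ih =>
    intro hj
    have hlt : j < Z.length := by omega
    have hs : Z[j]? = some Z[j] := List.getElem?_eq_getElem hlt
    rw [subst_take_succ σ' Z _ hs, st_succ σ Z _ hs, infl_add, ih (by omega), Nat.zero_add]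
    congr 1
    cases hz : Z[j] with
    | inl a =>
      rw [hz] at hs
      simp only [Sum.elim_inl, List.length_singleton]
      rw [infl_one, hb j (by omega), ha j a hs]
      simp
    | inr X =>
      rw [hz] at hs
      simp only [Sum.elim_inr]
      exact hc j X hs

/-- **EQ4** -/
theorem eqInfl : S_eqInfl := by
  classical
  intro A Ω a0 U V σ hσ u K y hU hV hband
  set W := wd a0 σ U with hW
  let σ' : Ω → List A := fun X =>
    if h : ∃ p, IsOcc σ U V X p then infl W u K y h.choose (σ X).length else σ X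
  have hσ' : ∀ X p, IsOcc σ U V X p → σ' X = infl W u K y p (σ X).length := by
    intro X p hp
    have hex : ∃ p, IsOcc σ U V X p := ⟨p, hp⟩
    have h1 : σ' X = infl W u K y hex.choose (σ X).length := dif_pos hex
    rw [h1]
    exact hband X _ _ hex.choose_spec hp
  have hWV : wd a0 σ V = W := by
    rw [hW]; unfold wd; rw [hσ.2]
  have e1 := subst_infl σ σ' W u K y U (fun j a h => wd_const a0 σ U a h) hU
    (fun j X h => hσ' X _ (Or.inl ⟨j, h, rfl⟩)) U.length le_rfl
  have e2 := subst_infl σ σ' W u K y V (fun j a h => by rw [← hWV]; exact wd_const a0 σ V a h) hV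
    (fun j X h => hσ' X _ (Or.inr ⟨j, h, rfl⟩)) V.length le_rfl
  rw [List.take_length, st_length] at e1 e2
  refine ⟨σ', ⟨?_, ?_⟩, hσ'⟩
  · intro X
    by_cases hex : ∃ p, IsOcc σ U V X p
    · obtain ⟨p, hp⟩ := hex
      rw [hσ' X p hp]
      refine infl_ne_nil _ _ _ _ _ _ ?_
      have := hσ.1 X
      intro h0
      exact this (List.length_eq_zero_iff.1 h0)
    · have h1 : σ' X = σ X := dif_neg hex
      rw [h1]
      exact hσ.1 X
  · rw [e1, e2, hσ.2]

/-- **EQ5** -/
theorem eqHit : S_eqHit := by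
  intro A Ω a0 U V σ hσ u K y hU q hq hyq
  have hex : ∃ j, q < st σ U j := ⟨U.length, by rw [st_length]; exact hq⟩
  classical
  let j' := Nat.find hex
  have hj' : q < st σ U j' := Nat.find_spec hex
  have hj'le : j' ≤ U.length := Nat.find_min' hex (by rw [st_length]; exact hq)
  have hj'0 : j' ≠ 0 := by
    intro h
    rw [h, st_zero] at hj'
    omega
  obtain ⟨j, hj⟩ := Nat.exists_eq_succ_of_ne_zero hj'0
  rw [Nat.succ_eq_add_one] at hj
  have hjle : st σ U j ≤ q := by
    have := Nat.find_min hex (m := j) (by show j < j'; omega)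
    omega
  have hlt : j < U.length := by omega
  have hs : U[j]? = some U[j] := List.getElem?_eq_getElem hlt
  rw [hj, st_succ σ U _ hs] at hj'
  have hne : st σ U j ≠ q := by
    intro h
    rw [← h] at hyq
    exact hyq (hU j (by omega))
  cases hz : U[j] with
  | inl a =>
    rw [hz] at hj'
    simp only [Sum.elim_inl, List.length_singleton] at hj'
    omega
  | inr X =>
    rw [hz] at hj' hs
    simp only [Sum.elim_inr] at hj'
    refine ⟨X, st σ U j, Or.inl ⟨j, hs, rfl⟩, ?_, ?_⟩
    · rw [← hz]; exact List.getElem_mem hlt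
    · obtain ⟨k, hk⟩ : ∃ k, q = st σ U j + k := ⟨q - st σ U j, by omega⟩
      obtain ⟨r, hr⟩ : ∃ r, (σ X).length = k + (1 + r) := ⟨(σ X).length - k - 1, by omega⟩
      rw [hr, infl_add, infl_add, infl_one, ← hk]
      obtain ⟨e, he⟩ : ∃ e, K * y q = K + e := by
        obtain ⟨f, hf⟩ := Nat.exists_eq_succ_of_ne_zero hyq
        exact ⟨K * f, by rw [hf, Nat.succ_eq_add_one, Nat.mul_add, Nat.mul_one, Nat.add_comm]⟩
      rw [he, List.replicate_add, List.flatten_append]
      refine ⟨infl (wd a0 σ U) u K y (st σ U j) k, (List.replicate e u).flatten ++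
        [wd a0 σ U q] ++ infl (wd a0 σ U) u K y (q + 1) r, ?_⟩
      simp only [List.append_assoc]

end H914.WE
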